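import Pool.Agent.Q173.KS.Stm

/-!
# Project KS (helper173), job PHASE
-/

set_option autoImplicit false

namespace Pool.Agent.Q256.KS

open Finset Pool.Agent.Q173.KS

lemma ES_sub {α : Type} [DecidableEq α] (ℓ : List (Op α)) (Φ Ψ : Finset α → ℝ) (S : Finset α) :
    ES ℓ (fun S => Φ S - Ψ S) S = ES ℓ Φ S - ES ℓ Ψ S :=
  EP_sub ℓ _ _

lemma inv_sub_card {α : Type} [DecidableEq α] {k : ℕ} {X : Finset α} {Φ : Finset α → ℝ}
    (h : InvOn k X Φ) (u : ℕ → ℝ) : InvOn k X (fun S => Φ S - u S.card) := by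
  intro S S' hS h1 h2
  have h3 : S.card = S'.card := by
    rw [← Finset.card_sdiff_add_card_inter S X, ← Finset.card_sdiff_add_card_inter S' X, h1, h2]
  show Φ S - u S.card = Φ S' - u S'.card
  rw [h S S' hS h1 h2, h3]

lemma rel_sub {α : Type} [DecidableEq α] [Fintype α] {k : ℕ} {Φ Ψ : Finset α → ℝ}
    (h : Rel k Φ) (h' : Rel k Ψ) : Rel k (fun S => Φ S - Ψ S) := by
  intro S hS
  have h1 := h S hS
  have h2 := h' S hS
  rw [Finset.sum_sub_distrib, Finset.sum_sub_distrib]
  linarith

lemma ES_empty {I : Type} [Fintype I] [DecidableEq I] (ℓ : List (Op (Bool × I))) :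
    ES ℓ Phi0 ∅ = 1 := by
  unfold ES
  have : (fun σ : Equiv.Perm (Bool × I) => Phi0 ((∅ : Finset (Bool × I)).map σ.toEmbedding)) =
      fun _ => (1 : ℝ) := by
    funext σ
    rw [Finset.map_empty]
    unfold Phi0
    rw [Finset.prod_empty]
  rw [this]
  exact EP_const ℓ 1

lemma ok_pairs (I : Type) [Fintype I] [DecidableEq I] :
    Ok (pairsP (I := I) (fun _ => 1 / 2)) := by
  intro o ho
  unfold pairsP at ho
  obtain ⟨i, _, rfl⟩ := List.mem_map.1 ho
  refine ⟨?_, by norm_num, by norm_num⟩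
  intro h
  have := congrArg Prod.fst h
  simp at this

theorem phase (hROUND : S_ROUND) (hCONTR : S_CONTR) (hINIT : S_INIT) : S_PHASE := by
  intro I _ _ k hk hI m hHas r
  obtain ⟨ℓ0, hok0, huni0, hlen0⟩ := hHas
  obtain ⟨hI1, hI2, hI3⟩ := hINIT
  obtain ⟨hL, hR, hRel, habs⟩ := hI1 I k
  induction r with
  | zero =>
    have hnil : ES ([] : List (Op (Bool × I))) Phi0 = Phi0 := funext fun S => ES_nil _ _
    refine ⟨[], ?_, ?_, ?_, ?_, ?_⟩
    · intro o ho
      simp at ho
    · simp
    · rw [hnil]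
      exact hL
    · rw [hnil]
      exact hR
    · intro S hS
      rw [hnil, pow_zero, mul_one]
      have h1 := habs S
      have h2 := hI3 (Fintype.card I) S.card (hS.trans hk)
      calc |Phi0 S - uu (Fintype.card I) S.card| ≤ |Phi0 S| + |uu (Fintype.card I) S.card| :=
            abs_sub _ _
        _ ≤ 2 := by linarith
  | succ r ih =>
    obtain ⟨ℓ, hok, hlen, hinvL, hinvR, hb⟩ := ih
    have hES : ES (ℓ0.map (Op.map (emR I)) ++ (pairsP (fun _ => 1 / 2) ++ ℓ)) Phi0 =
        ES (ℓ0.map (Op.map (emR I))) (ES (pairsP (fun _ => 1 / 2)) (ES ℓ Phi0)) := by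
      funext S
      rw [ES_append]
      congr 1
      funext S'
      rw [ES_append]
    obtain ⟨hr1, hr2⟩ := hROUND I k ℓ0 huni0 (ES ℓ Phi0) hinvL hinvR
    refine ⟨ℓ0.map (Op.map (emR I)) ++ (pairsP (fun _ => 1 / 2) ++ ℓ), ?_, ?_, ?_, ?_, ?_⟩
    · exact (Ok.map hok0 (emR I)).append ((ok_pairs I).append hok)
    · rw [List.length_append, List.length_append, List.length_map]
      have hp : (pairsP (I := I) (fun _ => 1 / 2)).length = Fintype.card I := by
        unfold pairsP
        rw [List.length_map, Finset.length_toList, Finset.card_univ]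
      rw [hp, add_mul, one_mul]
      omega
    · rw [hES]
      exact hr1
    · rw [hES]
      exact hr2
    · intro S hS
      rw [hES]
      have hc := hCONTR I k hk hI ℓ0 hok0 huni0
        (fun S => ES ℓ Phi0 S - uu (Fintype.card I) S.card)
        (2 * (((k : ℝ) + k ^ 2) / Fintype.card I) ^ r)
        (inv_sub_card hinvL _) (inv_sub_card hinvR _)
        (rel_sub (Rel.ES hRel ℓ) (hI2 I k hk))
        (by
          show ES ℓ Phi0 ∅ - uu (Fintype.card I) (∅ : Finset (Bool × I)).card = 0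
          rw [ES_empty, Finset.card_empty]
          show (1 : ℝ) - 1 = 0
          norm_num)
        hb S hS
      have e1 : ES (pairsP (fun _ => 1 / 2)) (fun S => ES ℓ Phi0 S - uu (Fintype.card I) S.card) =
          fun S => ES (pairsP (fun _ => 1 / 2)) (ES ℓ Phi0) S - uu (Fintype.card I) S.card := by
        funext S'
        rw [ES_sub (pairsP (fun _ => 1 / 2)) (ES ℓ Phi0) (fun S => uu (Fintype.card I) S.card) S',
          ES_card]
      rw [e1, ES_sub (ℓ0.map (Op.map (emR I))) (ES (pairsP (fun _ => 1 / 2)) (ES ℓ Phi0))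
        (fun S => uu (Fintype.card I) S.card) S, ES_card] at hc
      refine hc.trans (le_of_eq ?_)
      rw [pow_succ]
      ring

end Pool.Agent.Q256.KS
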